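import Mathlib
import Pool.Agent.Lib.MP_3e1590_mp.Defs
import Pool.Agent.Lib.MP_3e1590_mp.Proof

set_option autoImplicit false

open Pool.Agent.Lib.MP_3e1590_mp

/-- There is a three-qubit paradox whose state is not carried to any interpolant state by a
permutation of the qubits, local unitaries and a global phase. -/
theorem Pool.Agent.Results.MP_3e1590_mp.Counterexample.result :
    ∃ (ψ : State) (M : Fin 3 → Finset (Fin 3 → ℝ)),
      ∑ x, ‖ψ x‖ ^ 2 = 1 ∧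
      (∀ i, (M i).Nonempty ∧ ∀ n ∈ M i, ∑ k, n k ^ 2 = 1) ∧
      IsParadox ψ M ∧
      ∀ l ∈ Set.Ico (0 : ℝ) (Real.pi / 2),
        ∀ (U : Fin 3 → Matrix.unitaryGroup (Fin 2) ℂ) (σ : Equiv.Perm (Fin 3)) (κ : ℂ), ‖κ‖ = 1 →
          κ • act (fun i => (U i : Matrix (Fin 2) (Fin 2) ℂ)) (fun x => ψ (x ∘ σ)) ≠ interp l :=
  ⟨psi, MM, psi_norm, MM_ok, paradox, fun l _ U σ κ hκ => not_equiv l U σ κ hκ⟩
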